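import Pool.Agent.Helper48.AED.Spec

/-! Swarm AED (MP_8e9e20_co), part GEO. -/

set_option autoImplicit false

open Finset Matrix

namespace Pool.Agent.Helper11.AED.GEO

open Pool.AED48

theorem quad {n : ℕ} (v a : Fin n → ℝ) (hv : ∑ i, v i = 0) :
    ∑ i, ∑ j, v i * v j * (a i - a j) ^ 2 = -2 * (∑ i, v i * a i) ^ 2 := by
  have h1 : ∀ i j, v i * v j * (a i - a j) ^ 2 =
      (v i * a i ^ 2) * v j + v i * (v j * a j ^ 2) - 2 * ((v i * a i) * (v j * a j)) := by
    intro i j; ring
  simp only [h1, Finset.sum_add_distrib, Finset.sum_sub_distrib]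
  rw [← Finset.sum_mul_sum, ← Finset.sum_mul_sum, hv]
  have h2 : ∑ i, ∑ j, 2 * ((v i * a i) * (v j * a j)) = 2 * (∑ i, v i * a i) ^ 2 := by
    rw [sq, Finset.sum_mul_sum, Finset.mul_sum]
    simp only [Finset.mul_sum]
  rw [h2]; ring

theorem distsq {d : ℕ} (x y : EuclideanSpace ℝ (Fin d)) :
    dist x y ^ 2 = ∑ r, (x r - y r) ^ 2 := by
  rw [EuclideanSpace.dist_eq, Real.sq_sqrt (Finset.sum_nonneg (fun _ _ => sq_nonneg _))]
  refine Finset.sum_congr rfl (fun r _ => ?_)
  rw [Real.dist_eq, sq_abs]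

theorem qf_eq {n d : ℕ} (p : Fin n → EuclideanSpace ℝ (Fin d)) (v : Fin n → ℝ)
    (hv : ∑ i, v i = 0) : qf (amat p) v = 2 * ∑ r, (∑ i, v i * p i r) ^ 2 := by
  classical
  have hA : ∀ i j, amat p i j = 1 - dist (p i) (p j) ^ 2 - (if i = j then 1 else 0) := by
    intro i j
    by_cases h : i = j
    · subst h; simp [amat]
    · simp [amat, h]
  unfold qf
  have h1 : ∀ i j, v i * amat p i j * v j =
      v i * v j - ∑ r, v i * v j * (p i r - p j r) ^ 2 - (if i = j then v i * v j else 0) := by
    intro i j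
    rw [hA, distsq, ← Finset.mul_sum]
    split_ifs <;> ring
  simp only [h1, Finset.sum_sub_distrib]
  rw [← Finset.sum_mul_sum, hv]
  have h2 : ∑ i, ∑ j, (if i = j then v i * v j else 0) = ∑ i, v i ^ 2 := by
    refine Finset.sum_congr rfl (fun i _ => ?_)
    rw [Finset.sum_ite_eq]
    simp [sq]
  have h3 : ∑ i, ∑ j, ∑ r, v i * v j * (p i r - p j r) ^ 2 =
      -2 * ∑ r, (∑ i, v i * p i r) ^ 2 := by
    have e1 : ∑ i, ∑ j, ∑ r, v i * v j * (p i r - p j r) ^ 2 =
        ∑ r, ∑ i, ∑ j, v i * v j * (p i r - p j r) ^ 2 := by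
      rw [Finset.sum_comm' (s := Finset.univ) (t := fun _ => Finset.univ)
        (t' := Finset.univ) (s' := fun _ => Finset.univ) (by simp)]
      rw [Finset.sum_congr rfl (fun i _ => Finset.sum_comm)]
      rw [Finset.sum_comm]
      refine Finset.sum_congr rfl (fun r _ => ?_)
      rw [Finset.sum_comm]
    rw [e1, Finset.mul_sum]
    refine Finset.sum_congr rfl (fun r _ => ?_)
    exact quad v (fun i => p i r) hv
  rw [h2, h3]; ring

theorem main : S_GEO := by
  classical
  intro n d p hp
  have hle : ∀ i j, dist (p i) (p j) ^ 2 ≤ 1 := by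
    intro i j
    have := hp.le_one i j
    have h0 : 0 ≤ dist (p i) (p j) := dist_nonneg
    nlinarith
  refine ⟨?_, ?_, ?_, ?_, ?_, ?_⟩
  · intro i j
    by_cases h : i = j
    · subst h; rfl
    · have h' : ¬ j = i := fun e => h e.symm
      simp [amat, h, h', dist_comm]
  · intro i j
    by_cases h : i = j
    · simp [amat, h]
    · simp only [amat, h, if_false]
      linarith [hle i j]
  · intro i j
    by_cases h : i = j
    · simp [amat, h]
    · simp only [amat, h, if_false]
      have : 0 < dist (p i) (p j) := dist_pos.mpr (fun e => h (hp.inj e))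
      nlinarith
  · intro i; simp [amat]
  · intro i j k
    by_cases h1 : i = j
    · simp [amat, h1]
    by_cases h2 : j = k
    · simp [amat, h2]
    by_cases h3 : i = k
    · simp [amat, h3]
    have h3' : ¬ k = i := fun e => h3 e.symm
    simp only [amat, h1, h2, h3', if_false]
    rcases hp.triple i j k h1 h2 h3 with h | h | h
    · rw [h]; ring
    · rw [h]; ring
    · rw [dist_comm (p k) (p i), h]; ring
  · refine ⟨
      { toFun := fun v r => ∑ i, v i * p i r
        map_add' := ?_
        map_smul' := ?_ }, ?_⟩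
    · intro v w; ext r
      simp only [Pi.add_apply, add_mul, Finset.sum_add_distrib]
    · intro c v; ext r
      simp only [Pi.smul_apply, smul_eq_mul, RingHom.id_apply, Finset.mul_sum, mul_assoc]
    · intro v hv
      exact qf_eq p v hv

end Pool.Agent.Helper11.AED.GEO
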